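import Pool.Agent.Helper58.MCV.Proof

set_option autoImplicit false

/-!
# Energy levels of contact type below the Mañé critical value of the universal cover

Question Q1 of MP_410757_gt asks whether, for a closed manifold `M` other than the `2`-torus and a
convex superlinear Hamiltonian `H` on `T*M`, the energy levels `Σ_h` with `e_0 < h < c_u` are never
of contact type. The theorem below answers it in the negative, in every dimension `n ≥ 3`: there are
a closed `n`-manifold `M` and a smooth convex superlinear `H` on `T*M` with `e_0 = 0` and
`c_u = 1 / 2` such that *every* level `Σ_h` with `0 < h < 1 / 2` is of contact type.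

The definitions are in `Pool/Agent/Helper58/MCV/Defs.lean`.

## The manifolds

Everything is written on the universal cover. `M = ℝⁿ / Γ`, where `Γ` is a group of diffeomorphisms
of `ℝⁿ` that acts freely, properly discontinuously and cocompactly (`IsDeckGroup`); so `M` is a
closed connected smooth `n`-manifold whose universal cover is `ℝⁿ`. As `n ≥ 3` it is not
diffeomorphic to the `2`-torus. Functions and `1`-forms on `T*M` are the functions and `1`-forms on
`T*ℝⁿ = ℝⁿ × (ℝⁿ)*` that are invariant under the cotangent lifts of the elements of `Γ`.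

## The example

`ℝⁿ` carries the group structure `(w * x)_i = w_i + exp (c_i w_0) x_i` with `c_1 = 1`, `c_2 = -1` and
`c_i = 0` for the other `i`; this is the product of the solvable group `Sol` and of `ℝ^(n-3)`. The
group `Γ` consists of the left translations by the lattice points
`(a_0 s, a_1 + a_2 φ, a_1 + a_2 ψ, a_3, …)`, `a ∈ ℤⁿ`, where `φ`, `ψ` are the golden ratio and its
conjugate and `s = 2 log φ`. Let `m_i = exp (c_i x_0) p_i` be the components of the covector `p` in
the left invariant frame. The Hamiltonian is `H = (1/2) ∑ (m_i - δ_{i1})²`: an exact magnetic flow,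
`H = (1/2) |p - θ|²` with `θ` the left invariant `1`-form `exp (-x_0) dx_1`. The contact form is
`p dx + df` with `f = m_0 (3 - m_1) / 2`, and

`(p dx + df)(X_H) = (1/2) m_1 (m_1 - 1)² + (1/2) (5 - m_1) m_2² + (1 - m_1 / 2) m_0² + ∑_{i≥3} m_i²`,

which is positive on `Σ_h`, `0 < h < 1/2`, because `0 < m_1 < 2` there.
-/

namespace Pool.Agent.Results.MP_410757_gt.ContactBelowMane

open Pool.Agent.Helper58.MCV

/-- **Energy levels of contact type below the Mañé critical value of the universal cover.** For
every `n ≥ 3` there are a closed connected `n`-manifold `M = ℝⁿ / Γ` and a smooth convex superlinear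
Hamiltonian `H` on `T*M` with `e_0 = min {h | π(Σ_h) = M} = 0` and `c_u = 1 / 2`, such that every
energy level `Σ_h` with `e_0 < h < c_u` is of contact type. -/
theorem result (n : ℕ) (hn : 3 ≤ n) :
    ∃ (Γ : Subgroup (Equiv.Perm (V n))) (H : Cot n → ℝ), IsDeckGroup Γ ∧ IsTonelli Γ H ∧
      IsE0 H 0 ∧ criticalValue H = ((1 / 2 : ℝ) : EReal) ∧
      ∀ h : ℝ, 0 < h → h < 1 / 2 → IsContactType Γ H h := by
  obtain ⟨k, rfl⟩ := Nat.exists_eq_add_of_le' hn
  exact ⟨Gam k, Ham, isDeckGroup, ⟨contDiff_Ham, Ham_invariant, fibreConvex_Ham,
    superlinear_Ham⟩, isE0_Ham, criticalValue_Ham, contactType⟩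

end Pool.Agent.Results.MP_410757_gt.ContactBelowMane
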